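import Mathlib
import Pool.Agent.R342.Conn.Orbit

/-!
# A connected quadratic functional graph with a fixed-point cycle modulo the prime `1113643`

For the prime `p = 1113643` and `a = 1/4 = 278411` in `F_p` the functional graph of `x ↦ x ^ 2 + a` on
`F_p` is connected, and its unique cycle is the fixed point `1/2 = 556822`. This disproves the
conjecture that there is no such graph for `p > 7`.

Proof: with `x = 1/2 - y` the map is `y ↦ y (1 - y)`. A kernel computation (`Pool.Agent.R342.Conn`)
shows that for every `t` with `1 ≤ t ≤ (p + 1) / 2` the orbit of `t` contains after at least one step a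
residue `y` such that `y` or its mirror `1 - y` is represented by a smaller natural number.
-/

set_option autoImplicit false

namespace Pool.Agent.Results.MP_28a92f_nt.ConnectedFixedPoint

/-- The map `x ↦ x ^ 2 + a` on `F_p`. -/
def f (p : ℕ) (a x : ZMod p) : ZMod p := x ^ 2 + a

/-- The underlying undirected graph of the functional graph of `f p a`, with vertex set `F_p`: two
different vertices are adjacent if one of them is mapped to the other. -/
def graph (p : ℕ) (a : ZMod p) : SimpleGraph (ZMod p) := SimpleGraph.fromRel fun x y => f p a x = y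

/-- `c` is a cycle of `f p a`: `c = {x, f x, ..., f^(n-1) x}` with `n ≥ 1` and `f^n x = x`. -/
def IsCycle (p : ℕ) (a : ZMod p) (c : Set (ZMod p)) : Prop :=
  ∃ (x : ZMod p) (n : ℕ), 1 ≤ n ∧ (f p a)^[n] x = x ∧ c = {y | ∃ i < n, (f p a)^[i] x = y}

open Pool.Agent.R342.Conn

theorem prime_P : Nat.Prime 1113643 := by norm_num

/-- the coordinate change -/
def phi (y : ZMod P) : ZMod P := 556822 - y

theorem four : (4 : ZMod P) * 278411 = 1 := by
  have h1 : ((1113644 : ℕ) : ZMod P) = ((1113643 : ℕ) : ZMod P) + 1 := by norm_num
  rw [castP, zero_add] at h1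
  have h2 : (4 : ZMod P) * 278411 = ((1113644 : ℕ) : ZMod P) := by norm_num
  rw [h2, h1]

theorem two : (2 : ZMod P) * 556822 = 1 := by
  have h1 : ((1113644 : ℕ) : ZMod P) = ((1113643 : ℕ) : ZMod P) + 1 := by norm_num
  rw [castP, zero_add] at h1
  have h2 : (2 : ZMod P) * 556822 = ((1113644 : ℕ) : ZMod P) := by norm_num
  rw [h2, h1]

theorem semiconj (y : ZMod P) : f P 278411 (phi y) = phi (h y) := by
  have h4 := four
  have h2 := two
  unfold f phi h
  have e1 : (556822 : ZMod P) = 2 * 278411 := by norm_num
  rw [e1] at h2 ⊢
  linear_combination (278411 : ZMod P) * h4 - y * h4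

theorem iter_semiconj (k : ℕ) (y : ZMod P) : (f P 278411)^[k] (phi y) = phi (h^[k] y) := by
  induction k generalizing y with
  | zero => rfl
  | succ k ih => rw [Function.iterate_succ_apply, semiconj, ih, Function.iterate_succ_apply]

/-- every orbit reaches `1/2` -/
theorem reach (x : ZMod P) : ∃ k : ℕ, (f P 278411)^[k] x = 556822 := by
  obtain ⟨k, hk⟩ := R_all (556822 - x)
  refine ⟨k, ?_⟩
  have hx : phi (556822 - x) = x := by unfold phi; ring
  have := iter_semiconj k (556822 - x)
  rw [hx, hk] at this
  rw [this]; unfold phi; ring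

theorem fixed : f P 278411 556822 = 556822 := by
  have := semiconj 0
  simpa [phi, h] using this

theorem fixed_iter (k : ℕ) : (f P 278411)^[k] 556822 = 556822 := Function.iterate_fixed fixed k

/-- **Theorem.** The number `1113643` is a prime larger than `7`, and for `a = 278411` (this is `1/4` in
`F_p`) the functional graph of `x ↦ x ^ 2 + a` on `F_p`, `p = 1113643`, is connected and has exactly one
cycle, which consists of one element. -/
theorem result : Nat.Prime 1113643 ∧ (7 < 1113643) ∧
    (graph 1113643 278411).Connected ∧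
    (∃! c : Set (ZMod 1113643), IsCycle 1113643 278411 c) ∧
    ∀ c : Set (ZMod 1113643), IsCycle 1113643 278411 c → ∃ x : ZMod 1113643, c = {x} := by
  have key : ∀ c : Set (ZMod P), IsCycle P 278411 c → c = {556822} := by
    rintro c ⟨x, n, hn, hx, rfl⟩
    obtain ⟨k, hk⟩ := reach x
    have h1 : ∀ m : ℕ, (f P 278411)^[n * m] x = x := by
      intro m
      rw [Function.iterate_mul]
      exact Function.iterate_fixed hx m
    have h2 : x = 556822 := by
      have h3 := h1 k
      have h4 : n * k = (n * k - k) + k := by
        have : k ≤ n * k := Nat.le_mul_of_pos_left k (by omega)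
        omega
      rw [h4, Function.iterate_add_apply, hk, fixed_iter] at h3
      exact h3.symm
    subst h2
    ext y
    simp only [Set.mem_setOf_eq, Set.mem_singleton_iff]
    constructor
    · rintro ⟨i, _, hi⟩
      rw [← hi, fixed_iter]
    · rintro rfl
      exact ⟨0, by omega, rfl⟩
  have hc : IsCycle P 278411 {556822} := by
    refine ⟨556822, 1, le_refl _, fixed_iter 1, ?_⟩
    ext y
    simp only [Set.mem_setOf_eq, Set.mem_singleton_iff]
    constructor
    · rintro rfl
      exact ⟨0, by omega, rfl⟩
    · rintro ⟨i, _, hi⟩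
      rw [← hi, fixed_iter]
  refine ⟨prime_P, by norm_num, ?_, ⟨{556822}, hc, fun c hc' => key c hc'⟩, fun c hc' =>
    ⟨556822, key c hc'⟩⟩
  have hreach : ∀ (k : ℕ) (x : ZMod P), (graph P 278411).Reachable x ((f P 278411)^[k] x) := by
    intro k
    induction k with
    | zero => intro x; exact SimpleGraph.Reachable.refl x
    | succ k ih =>
      intro x
      rw [Function.iterate_succ_apply]
      refine SimpleGraph.Reachable.trans ?_ (ih (f P 278411 x))
      by_cases hxy : x = f P 278411 x
      · rw [← hxy]
      · exact SimpleGraph.Adj.reachable ((SimpleGraph.fromRel_adj _ _ _).mpr ⟨hxy, Or.inl rfl⟩)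
  have hall : ∀ x : ZMod P, (graph P 278411).Reachable x 556822 := by
    intro x
    obtain ⟨k, hk⟩ := reach x
    have := hreach k x
    rwa [hk] at this
  haveI : Nonempty (ZMod P) := ⟨0⟩
  exact ⟨fun x y => (hall x).trans (hall y).symm⟩

end Pool.Agent.Results.MP_28a92f_nt.ConnectedFixedPoint
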